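import Pool.Agent.Work.MP_bf6ff4_al.Bounds
import Pool.Agent.Work.MP_bf6ff4_al.Nil

/-!
# Systolic growth of a nilpotent Lie group versus its lattices: a negative answer

There is a simply connected nilpotent Lie group `G` (of dimension 10) with a lattice `Γ` such that
the systolic growth of `Γ` is not dominated by the systolic growth of `G`.
-/

open MeasureTheory Set
open scoped ENNReal Manifold ContDiff
open Pool.Agent.Systolic

theorem Pool.Agent.Results.MP_bf6ff4_al.SystolicGap.result :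
    ∃ (E : Type) (_ : NormedAddCommGroup E) (_ : NormedSpace ℝ E) (_ : FiniteDimensional ℝ E)
      (G : Type) (_ : Group G) (_ : TopologicalSpace G) (_ : ChartedSpace E G)
      (_ : LieGroup 𝓘(ℝ, E) ω G) (_ : MeasurableSpace G) (_ : BorelSpace G) (Γ : Subgroup G),
      T2Space G ∧ SecondCountableTopology G ∧ SimplyConnectedSpace G ∧ Group.IsNilpotent G ∧
      ∀ μ : Measure G, μ.IsHaarMeasure → ∀ S : Set G, IsCompact S → Subgroup.closure S = ⊤ →
        IsLattice μ Γ ∧
        (∃ c C : ℝ, 0 < c ∧ 0 < C ∧ ∀ r : ℝ, 1 ≤ r →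
          ENNReal.ofReal (c * r ^ 23) ≤ sysGrowthIn μ S Γ r ∧
          sysGrowthIn μ S Γ r ≤ ENNReal.ofReal (C * r ^ 24) ∧
          sysGrowth μ S r ≤ ENNReal.ofReal (C * r ^ (45 / 2 : ℝ))) ∧
        ¬ Dominated (sysGrowthIn μ S Γ) (sysGrowth μ S) := by
  refine ⟨V10, inferInstance, inferInstance, inferInstance, N10, inferInstance, inferInstance,
    inferInstance, inferInstance, inferInstance, inferInstance, N10.Gam, inferInstance,
    inferInstance, inferInstance, N10.isNilpotent, ?_⟩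
  intro μ hμ S hS hgen
  refine ⟨N10.isLattice_Gam μ, ?_, N10.not_dominated μ hS hgen⟩
  obtain ⟨c, hc, h1⟩ := N10.lower_bound μ hS hgen
  obtain ⟨C, hC, h2⟩ := N10.upper_bound_in μ hS hgen
  obtain ⟨D, hD, h3⟩ := N10.upper_bound μ hS hgen
  refine ⟨c, C + D, hc, by positivity, fun r hr => ?_⟩
  have hr0 : 0 < r := lt_of_lt_of_le one_pos hr
  refine ⟨h1 r hr0, (h2 r hr).trans (ENNReal.ofReal_le_ofReal ?_),
    (h3 r hr).trans (ENNReal.ofReal_le_ofReal ?_)⟩
  · gcongr
    linarith
  · have e : Real.sqrt r ^ 45 = r ^ (45 / 2 : ℝ) := by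
      rw [Real.sqrt_eq_rpow, ← Real.rpow_natCast, ← Real.rpow_mul hr0.le]
      norm_num
    rw [e]
    have h4 : 0 ≤ r ^ (45 / 2 : ℝ) := Real.rpow_nonneg hr0.le _
    nlinarith
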